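import Pool.Agent.Cubes5.Large
import Pool.Agent.Cubes5.Data

/-!
A positive cube `m³` is a sum of five positive cubes if and only if `m ∉ {1, 2, 3, 5, 6, 7}`.
-/

namespace Pool.Agent.Results.MP_3e5b54_nt.AllCubes

open Pool.Agent.Cubes5

theorem positive : ∀ m : ℕ, 0 < m → m ≠ 1 → m ≠ 2 → m ≠ 3 → m ≠ 5 → m ≠ 6 → m ≠ 7 →
    Five (m ^ 3) := by
  intro m
  induction m using Nat.strong_induction_on with
  | _ m ih =>
  intro h0 h1 h2 h3 h5 h6 h7
  rcases Nat.mod_two_eq_zero_or_one m with hev | hodd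
  · obtain ⟨t, ht⟩ : ∃ t, m = 2 * t := ⟨m / 2, by omega⟩
    by_cases ht2 : t = 2
    · subst ht2; rw [ht]; exact five_4
    by_cases ht5 : t = 5
    · subst ht5; rw [ht]; exact five_10
    by_cases ht6 : t = 6
    · subst ht6; rw [ht]; exact five_12
    by_cases ht7 : t = 7
    · subst ht7; rw [ht]; exact five_14
    have h := (ih t (by omega) (by omega) (by omega) ht2 (by omega) ht5 ht6 ht7).scale 2 (by norm_num)
    rw [ht, mul_pow]
    exact h
  · by_cases hA : m < 141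
    · exact small hodd (by omega) hA
    by_cases hB : m < 15811
    · exact medium hodd (by omega) hB
    exact large_odd hodd (by omega)

theorem bounded (N : ℕ) (hN : N = 1 ∨ N = 8 ∨ N = 27 ∨ N = 125 ∨ N = 216 ∨ N = 343) :
    ∀ a < 6, ∀ b < 6, ∀ c < 6, ∀ d < 6, ∀ e < 6,
      N ≠ (a + 1) ^ 3 + (b + 1) ^ 3 + (c + 1) ^ 3 + (d + 1) ^ 3 + (e + 1) ^ 3 := by
  rcases hN with rfl | rfl | rfl | rfl | rfl | rfl <;> decide +kernel

/-- **Theorem.** For a positive integer `m`, the cube `m ^ 3` is a sum of five positive cubes if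
and only if `m` is none of `1, 2, 3, 5, 6, 7`. -/
theorem result (m : ℕ) (hm : 0 < m) :
    (∃ a b c d e : ℕ, 0 < a ∧ 0 < b ∧ 0 < c ∧ 0 < d ∧ 0 < e ∧
        m ^ 3 = a ^ 3 + b ^ 3 + c ^ 3 + d ^ 3 + e ^ 3) ↔
      ¬ (m = 1 ∨ m = 2 ∨ m = 3 ∨ m = 5 ∨ m = 6 ∨ m = 7) := by
  constructor
  · rintro ⟨a, b, c, d, e, ha, hb, hc, hd, he, h⟩ hcon
    have hN : m ^ 3 = 1 ∨ m ^ 3 = 8 ∨ m ^ 3 = 27 ∨ m ^ 3 = 125 ∨ m ^ 3 = 216 ∨ m ^ 3 = 343 := by
      rcases hcon with rfl | rfl | rfl | rfl | rfl | rfl <;> norm_num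
    have hm7 : m ≤ 7 := by omega
    have key : ∀ x : ℕ, x ^ 3 < m ^ 3 → x < 7 := by
      intro x hx
      have := lt_of_pow_lt_pow_left₀ 3 (Nat.zero_le m) hx
      omega
    have pa : 0 < a ^ 3 := by positivity
    have pb : 0 < b ^ 3 := by positivity
    have pc : 0 < c ^ 3 := by positivity
    have pd : 0 < d ^ 3 := by positivity
    have pe : 0 < e ^ 3 := by positivity
    have qa := key a (by omega)
    have qb := key b (by omega)
    have qc := key c (by omega)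
    have qd := key d (by omega)
    have qe := key e (by omega)
    clear key pa pb pc pd pe
    obtain ⟨a, rfl⟩ : ∃ a', a = a' + 1 := ⟨a - 1, by omega⟩
    obtain ⟨b, rfl⟩ : ∃ b', b = b' + 1 := ⟨b - 1, by omega⟩
    obtain ⟨c, rfl⟩ : ∃ c', c = c' + 1 := ⟨c - 1, by omega⟩
    obtain ⟨d, rfl⟩ : ∃ d', d = d' + 1 := ⟨d - 1, by omega⟩
    obtain ⟨e, rfl⟩ : ∃ e', e = e' + 1 := ⟨e - 1, by omega⟩
    exact bounded (m ^ 3) hN a (by omega) b (by omega) c (by omega) d (by omega) e (by omega) h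
  · intro h
    exact positive m hm (by tauto) (by tauto) (by tauto) (by tauto) (by tauto) (by tauto)

end Pool.Agent.Results.MP_3e5b54_nt.AllCubes
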